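import Pool.Agent.Lib.MP_8050b7_ag.Lat

namespace Pool.Agent.Results.MP_8050b7_ag.Counterexample
open Pool.Agent.Lib.MP_8050b7_ag

/-- A supersolvable arrangement with `J^{(2r-1)}` not contained in `J^r`
(twelve planes in `ℂ^3`, `r = 2`). -/
theorem result : ∃ (l : ℕ) (A : Set (Submodule ℂ (Fin l → ℂ))) (r : ℕ),
    IsArrangement A ∧ IsSupersolvable A ∧ 2 ≤ r ∧
      ¬ symbPower A (2 * r - 1) ≤ singIdeal A ^ r :=
  ⟨3, Arr, 2, arr_isArrangement, arr_supersolvable, le_rfl,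
    fun h => F_not_mem (h F_mem_symb)⟩

end Pool.Agent.Results.MP_8050b7_ag.Counterexample
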